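import Pool.Agent.H83.D3N.Targets

/-!
MP_ee74d2_an, row SPH: the number of packets near a quadric.
-/

set_option autoImplicit false

namespace Pool.Agent.H19.D3N.SPH

open MeasureTheory Set
open scoped ENNReal NNReal RealInnerProductSpace
open Pool.Agent.H83.G (Z E TF TP Lo ctr IsPU Sep)
open Pool.Agent.H83.LS (BCd EE)
open Pool.Agent.H81.GT (tz SymE IsX Gf)
open Pool.Agent.H91.EL (qB qQ ll Sg gr Conf T_MAI)
open Pool.Agent.H92.EZ (sgm dsg T_EZ)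
open Pool.Agent.H83.D3N

private theorem tz_sub (z z' : Z 2) : |tz z - tz z'| ≤ 2 * ‖z - z'‖ := by
  have h1 : ‖(z - z').1‖ ≤ ‖z - z'‖ := norm_fst_le _
  have h2 : ‖(z - z').2.2‖ ≤ ‖z - z'‖ := (norm_snd_le _).trans (norm_snd_le _)
  rw [Real.norm_eq_abs] at h1 h2
  have e : tz z - tz z' = (z - z').1 + (z - z').2.2 := by
    unfold tz
    show z.1 + z.2.2 - (z'.1 + z'.2.2) = (z.1 - z'.1) + (z.2.2 - z'.2.2)
    ring
  rw [e]
  exact (abs_add_le _ _).trans (by linarith)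

private theorem fam_sub {β : E 2 → ℂ} {G : Z 2 → ℂ} {h ρ K₁ : ℝ} {P Q : Finset Tp}
    (hF : Fam β G h ρ K₁ P) (hQ : Q ⊆ P) : Fam β G h ρ K₁ Q :=
  ⟨fun p hp => hF.pk p (hQ hp), fun p hp => hF.eta p (hQ hp), fun p hp => hF.tag p (hQ hp),
    fun p hp p' hp' => hF.sepP p (hQ hp) p' (hQ hp')⟩

theorem pf_SPH (hCEL : T_CEL) (hEZS : T_EZS) (hQCV : T_QCV) : T_SPH := by
  intro κ δ β a Xc χ hκ ha hX hβ hδ
  obtain ⟨C1, hC1, hcel⟩ := hCEL
  obtain ⟨C2, hC2, hezs⟩ := hEZS κ δ β a Xc χ hκ ha hX hβ hδ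
  refine ⟨C1 * C2, one_le_mul_of_one_le_of_one_le hC1 hC2, ?_⟩
  intro R A D ρ K K₁ h lam n a' z₀ f P hR hf hA hD hρ hDR hK hKρ hK₁ htz hh hAh hF hn hza hP
  have hCR : C2 ≤ R := by
    have : C2 ≤ C1 * C2 := le_mul_of_one_le_left (by linarith) hC1
    linarith
  have hR0 : 0 < R := by linarith
  have hρ2 : 0 < ρ ^ 2 := by positivity
  have hDρ : ρ ^ 2 ≤ D * ρ ^ 2 := le_mul_of_one_le_left hρ2.le hD
  have hρR : ρ ^ 2 ≤ R := by linarith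
  have hK0 : 0 < K := by linarith
  have hh2 : 0 < h ^ 2 := by positivity
  have hRd : 0 < R ^ δ := Real.rpow_pos_of_pos hR0 _
  obtain ⟨T, hT⟩ : ∃ T : ℝ, T = A ^ 2 * R ^ 2 / Real.sqrt K := ⟨_, rfl⟩
  have hT0 : 0 ≤ T := by rw [hT]; positivity
  have hB0 : 0 ≤ C2 * R ^ δ * T / h ^ 2 := by
    have : 0 ≤ C2 := by linarith
    positivity
  have key := hcel D ρ (C2 * R ^ δ * T / h ^ 2) z₀ P hD hρ hB0 (fun p hp => (hP p hp).1) ?_
  · rw [← hT]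
    calc (P.card : ℝ) * h ^ 2 ≤ (C1 * D ^ 4 * (C2 * R ^ δ * T / h ^ 2)) * h ^ 2 :=
          mul_le_mul_of_nonneg_right key hh2.le
      _ = C1 * C2 * R ^ δ * D ^ 4 * T := by
          field_simp
  intro z₁ hz₁ Q hQP hQ
  obtain ⟨M, α, c, b, hM, hM1, hα, hb, hαb, hform⟩ := hQCV ρ lam n a' z₁ hρ hn
  -- the size of `M`
  have hza1 : ‖z₁ - a'‖ ≤ 104 * D * ρ ^ 2 := by
    have e : z₁ - a' = (z₁ - z₀) + (z₀ - a') := by abel
    rw [e]
    refine (norm_add_le _ _).trans ?_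
    linarith
  have hM2 : 1 ≤ M * (200 * D) := by
    refine hM1.trans (mul_le_mul_of_nonneg_left ?_ hM.le)
    have h1 : ρ⁻¹ ^ 2 * ‖z₁ - a'‖ ≤ ρ⁻¹ ^ 2 * (104 * D * ρ ^ 2) :=
      mul_le_mul_of_nonneg_left hza1 (by positivity)
    have h2 : ρ⁻¹ ^ 2 * (104 * D * ρ ^ 2) = 104 * D := by
      field_simp
    linarith
  have hdiv : ∀ x y : ℝ, M * x = y → |x| ≤ 200 * D * |y| := by
    intro x y hxy
    rw [← hxy, abs_mul, abs_of_pos hM]
    have h1 : 1 * |x| ≤ M * (200 * D) * |x| := mul_le_mul_of_nonneg_right hM2 (abs_nonneg x)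
    linarith [show 200 * D * (M * |x|) = M * (200 * D) * |x| by ring]
  have htz1 : |tz z₁| ≤ 4 * R := by
    have h1 := tz_sub z₁ z₀
    have h2 : |tz z₁| ≤ |tz z₀| + |tz z₁ - tz z₀| := by
      have := abs_add_le (tz z₀) (tz z₁ - tz z₀)
      rwa [add_sub_cancel] at this
    linarith
  have hfin := hezs R A ρ K K₁ h α c b z₁ f Q hCR hf hA hρ hρR hK hKρ hK₁ hα hb hαb htz1 hh hAh
    (fam_sub hF hQP) ?_
  · rw [← hT] at hfin
    rw [le_div_iff₀ hh2]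
    exact hfin
  intro p hp
  obtain ⟨-, hp2, hp3⟩ := hP p (hQP hp)
  obtain ⟨f1, f2⟩ := hform p.2.2 (ea ρ p)
  refine ⟨by linarith [(hQ p hp).1], ?_, ?_⟩
  · have h1 := hdiv _ _ f1
    rw [le_div_iff₀ hK0]
    calc |sgm α b c (p.2.2 - z₁)| * K ≤ (200 * D * |Sg lam n a' p.2.2|) * K :=
          mul_le_mul_of_nonneg_right h1 hK0.le
      _ = 200 * D * K * |Sg lam n a' p.2.2| := by ring
      _ ≤ ρ ^ 2 := hp2
  · have h1 := hdiv _ _ f2
    rw [le_div_iff₀ hK0]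
    calc |dsg α b (p.2.2 - z₁) (ea ρ p)| * K ≤
          (200 * D * |qB (gr lam n a' p.2.2) (ll (ea ρ p))|) * K :=
          mul_le_mul_of_nonneg_right h1 hK0.le
      _ = 200 * D * K * |qB (gr lam n a' p.2.2) (ll (ea ρ p))| := by ring
      _ ≤ 1 := hp3

end Pool.Agent.H19.D3N.SPH
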